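import Pool.Agent.P8H47.FP.Stm

/-!
# Project FP, parts EXT and CHAR (helper44)
-/

set_option autoImplicit false

namespace Pool.Agent.P8H44.FP

open Pool.Agent.P8H47.FP

section
variable {G P : Type} [Group G] [Group P]

theorem hom_one {U : Subgroup G} {ψ : G → P} (h : ∀ g ∈ U, ∀ h ∈ U, ψ (g * h) = ψ g * ψ h) :
    ψ 1 = 1 := by
  have h1 := h 1 U.one_mem 1 U.one_mem
  rw [mul_one] at h1
  exact (left_eq_mul.1 h1)

theorem hom_inv {U : Subgroup G} {ψ : G → P} (h : ∀ g ∈ U, ∀ h ∈ U, ψ (g * h) = ψ g * ψ h)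
    {g : G} (hg : g ∈ U) : ψ g⁻¹ = (ψ g)⁻¹ := by
  have h1 := h g hg g⁻¹ (U.inv_mem hg)
  rw [mul_inv_cancel, hom_one h] at h1
  exact eq_inv_of_mul_eq_one_right h1.symm

end

theorem ext : S_EXT := by
  classical
  intro G P _ _ U U' σ hle hσ hσ' hU hconj hσσ θ s hθ hs hs2
  have h1 : θ 1 = 1 := hom_one hθ
  let ψ : G → P := fun g => if g ∈ U' then θ g else θ (g * σ⁻¹) * s
  have hin : ∀ g, g ∈ U' → ψ g = θ g := fun g hg => if_pos hg
  have hout : ∀ g, g ∉ U' → ψ g = θ (g * σ⁻¹) * s := fun g hg => if_neg hg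
  refine ⟨ψ, ?_, hin, ?_⟩
  · intro g hg h hh
    by_cases hg' : g ∈ U' <;> by_cases hh' : h ∈ U'
    · rw [hin g hg', hin h hh', hin _ (U'.mul_mem hg' hh'), hθ g hg' h hh']
    · have hgh : g * h ∉ U' := fun hc => hh' ((U'.mul_mem_cancel_left hg').1 hc)
      rw [hin g hg', hout h hh', hout _ hgh, mul_assoc g h, hθ g hg' _ (hU h hh hh'), mul_assoc]
    · have hgh : g * h ∉ U' := fun hc => hg' ((U'.mul_mem_cancel_right hh').1 hc)
      have e : g * h * σ⁻¹ = (g * σ⁻¹) * (σ * h * σ⁻¹) := by group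
      rw [hout g hg', hin h hh', hout _ hgh, e, hθ _ (hU g hg hg') _ (hconj h hh'), hs h hh']
      group
    · have hgh : g * h = (g * σ⁻¹) * ((σ * (h * σ⁻¹) * σ⁻¹) * (σ * σ)) := by group
      have m1 := hU g hg hg'
      have m2 := hU h hh hh'
      have m3 := hconj _ m2
      have hgh' : g * h ∈ U' := by
        rw [hgh]
        exact U'.mul_mem m1 (U'.mul_mem m3 hσσ)
      rw [hout g hg', hout h hh', hin _ hgh', hgh, hθ _ m1 _ (U'.mul_mem m3 hσσ),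
        hθ _ m3 _ hσσ, hs _ m2, hs2]
      group
  · rw [hout σ hσ', mul_inv_cancel, h1, one_mul]

theorem char : S_CHAR := by
  classical
  intro hext G P Q _ _ _ _ _ π c hsur hker hc hcen U U' σ hle hσ hσ' hU hconj hσσ ⟨V₀, hV₀, hV₀'⟩
    ψ hψ θ hθ hπθ
  have hcc : c * c = 1 := by
    have h1 : π c = 1 := (hker c).2 (Or.inr rfl)
    have h2 : π (c * c) = 1 := by rw [map_mul, h1, one_mul]
    rcases (hker (c * c)).1 h2 with h3 | h3
    · exact h3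
    · exact absurd (mul_eq_left.1 h3) hc
  -- the central elements `cp c ε`
  have Zone : cp c (1 : ℤˣ) = 1 := if_pos rfl
  have Zneg : cp c (-1 : ℤˣ) = c := if_neg (by decide)
  have Zmul : ∀ ε δ : ℤˣ, cp c (ε * δ) = cp c ε * cp c δ := by
    intro ε δ
    rcases Int.units_eq_one_or ε with rfl | rfl <;> rcases Int.units_eq_one_or δ with rfl | rfl
    · rw [Zone, mul_one, Zone, mul_one]
    · rw [Zone, one_mul, one_mul]
    · rw [Zone, mul_one, mul_one]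
    · have : (-1 : ℤˣ) * (-1) = 1 := by decide
      rw [this, Zone, Zneg, hcc]
  have Zcen : ∀ (ε : ℤˣ) (x : P), cp c ε * x = x * cp c ε := by
    intro ε x
    rcases Int.units_eq_one_or ε with rfl | rfl
    · rw [Zone, one_mul, mul_one]
    · rw [Zneg, hcen]
  have Zinj : ∀ ε δ : ℤˣ, cp c ε = cp c δ → ε = δ := by
    intro ε δ h
    rcases Int.units_eq_one_or ε with rfl | rfl <;> rcases Int.units_eq_one_or δ with rfl | rfl
    · rfl
    · rw [Zone, Zneg] at h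
      exact absurd h.symm hc
    · rw [Zone, Zneg] at h
      exact absurd h hc
    · rfl
  have sq1 : ∀ ε : ℤˣ, ε * ε = 1 := fun ε => Int.units_mul_self ε
  have Zinv : ∀ ε : ℤˣ, (cp c ε)⁻¹ = cp c ε := by
    intro ε
    rw [inv_eq_iff_mul_eq_one, ← Zmul, sq1, Zone]
  have Eex : ∀ a b : P, π a = π b → ∃ ε : ℤˣ, a = b * cp c ε := by
    intro a b h
    have h1 : π (b⁻¹ * a) = 1 := by rw [map_mul, map_inv, h, inv_mul_cancel]
    rcases (hker _).1 h1 with h2 | h2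
    · exact ⟨1, by rw [Zone, mul_one]; exact (eq_of_inv_mul_eq_one h2).symm⟩
    · exact ⟨-1, by rw [Zneg]; exact eq_mul_of_inv_mul_eq h2⟩
  have Emul : ∀ (a b a' b' : P) (ε δ : ℤˣ), a = b * cp c ε → a' = b' * cp c δ →
      a * a' = b * b' * cp c (ε * δ) := by
    intro a b a' b' ε δ h1 h2
    rw [h1, h2, Zmul, mul_assoc b, ← mul_assoc (cp c ε), Zcen ε b', mul_assoc b', ← mul_assoc b]
  have Einv : ∀ (a b : P) (ε : ℤˣ), a = b * cp c ε → a⁻¹ = b⁻¹ * cp c ε := by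
    intro a b ε h
    rw [h, mul_inv_rev, Zinv, Zcen]
  have Euniq : ∀ (a b : P) (ε δ : ℤˣ), a = b * cp c ε → a = b * cp c δ → ε = δ := by
    intro a b ε δ h1 h2
    rw [h1] at h2
    exact Zinj _ _ (mul_left_cancel h2)
  have Erefl : ∀ a : P, a = a * cp c 1 := fun a => by rw [Zone, mul_one]
  obtain ⟨s₀, hs₀⟩ := hsur (ψ σ)
  have hψc : ∀ τ ∈ U, ∀ h ∈ U, ψ (τ * h * τ⁻¹) = ψ τ * ψ h * (ψ τ)⁻¹ := by
    intro τ hτ h hh
    rw [hψ.mul _ (U.mul_mem hτ hh) _ (U.inv_mem hτ), hψ.mul _ hτ _ hh, hom_inv hψ.mul hτ]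
  -- the character on `U'`
  have hχ : ∀ h : G, ∃ ε : ℤˣ, h ∈ U' → θ (σ * h * σ⁻¹) = s₀ * θ h * s₀⁻¹ * cp c ε := by
    intro h
    by_cases hh : h ∈ U'
    · obtain ⟨ε, hε⟩ := Eex (θ (σ * h * σ⁻¹)) (s₀ * θ h * s₀⁻¹) (by
        rw [hπθ _ (hconj h hh), hψc σ hσ h (hle hh), map_mul, map_mul, map_inv, hs₀, hπθ h hh])
      exact ⟨ε, fun _ => hε⟩
    · exact ⟨1, fun h' => absurd h' hh⟩
  choose χ hχ using hχ
  have χmul : ∀ g ∈ U', ∀ h ∈ U', χ (g * h) = χ g * χ h := by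
    intro g hg h hh
    have h1 := Emul _ _ _ _ _ _ (hχ g hg) (hχ h hh)
    have h2 := hχ (g * h) (U'.mul_mem hg hh)
    have e1 : σ * (g * h) * σ⁻¹ = (σ * g * σ⁻¹) * (σ * h * σ⁻¹) := by group
    have e2 : s₀ * (θ g * θ h) * s₀⁻¹ = (s₀ * θ g * s₀⁻¹) * (s₀ * θ h * s₀⁻¹) := by group
    rw [e1, hθ.mul _ (hconj g hg) _ (hconj h hh), hθ.mul g hg h hh, e2] at h2
    exact Euniq _ _ _ _ h2 h1
  obtain ⟨ε, hε⟩ := Eex (θ (σ * σ)) (s₀ * s₀) (by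
    rw [hπθ _ hσσ, hψ.mul _ hσ _ hσ, map_mul, hs₀])
  have χconj : ∀ h ∈ U', χ (σ * h * σ⁻¹) = χ h := by
    intro h hh
    have h1 := hχ (σ * h * σ⁻¹) (hconj h hh)
    -- first way
    have h2 : s₀ * θ (σ * h * σ⁻¹) * s₀⁻¹ = (s₀ * (s₀ * θ h * s₀⁻¹) * s₀⁻¹) * cp c (χ h) := by
      have h3 := Emul _ _ _ _ _ _ (Emul _ _ _ _ _ _ (Erefl s₀) (hχ h hh)) (Erefl s₀⁻¹)
      rwa [one_mul, mul_one] at h3
    have h4 := Emul _ _ _ _ _ _ h2 (show cp c (χ (σ * h * σ⁻¹)) = 1 * cp c (χ (σ * h * σ⁻¹)) by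
      rw [one_mul])
    rw [← h1, mul_one] at h4
    -- second way
    have e1 : σ * (σ * h * σ⁻¹) * σ⁻¹ = (σ * σ) * h * (σ * σ)⁻¹ := by group
    have h5 : θ (σ * σ * h * (σ * σ)⁻¹) = θ (σ * σ) * θ h * (θ (σ * σ))⁻¹ := by
      rw [hθ.mul _ (U'.mul_mem hσσ hh) _ (U'.inv_mem hσσ), hθ.mul _ hσσ _ hh, hom_inv hθ.mul hσσ]
    have h6 := Emul _ _ _ _ _ _ (Emul _ _ _ _ _ _ hε (Erefl (θ h))) (Einv _ _ _ hε)
    rw [← h5, ← e1, mul_one, sq1] at h6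
    have e2 : s₀ * s₀ * θ h * (s₀ * s₀)⁻¹ = s₀ * (s₀ * θ h * s₀⁻¹) * s₀⁻¹ := by group
    rw [e2] at h6
    have h7 := Euniq _ _ _ _ h4 h6
    have h8 := congrArg (fun z => χ h * z) h7
    simp only [← mul_assoc, sq1, one_mul, mul_one] at h8
    exact h8
  have χσσ : χ (σ * σ) = 1 := by
    have h1 := hχ (σ * σ) hσσ
    have e1 : σ * (σ * σ) * σ⁻¹ = σ * σ := by group
    rw [e1] at h1
    have h2 := Emul _ _ _ _ _ _ (Emul _ _ _ _ _ _ (Erefl s₀) hε) (Erefl s₀⁻¹)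
    rw [one_mul, mul_one] at h2
    have h4 := Emul _ _ _ _ _ _ h2 (show cp c (χ (σ * σ)) = 1 * cp c (χ (σ * σ)) by
      rw [one_mul])
    rw [← h1, mul_one] at h4
    have e2 : s₀ * (s₀ * s₀) * s₀⁻¹ = s₀ * s₀ := by group
    rw [e2] at h4
    have h5 := Euniq _ _ _ _ h4 hε
    exact mul_eq_left.1 h5
  obtain ⟨X, X1, X2, X3⟩ := hext G ℤˣ U U' σ hle hσ hσ' hU hconj hσσ χ ε χmul
    (fun h hh => by rw [χconj h hh, mul_comm ε, mul_assoc, mul_inv_cancel, mul_one])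
    (by rw [χσσ, sq1])
  refine ⟨X, ⟨X1, ?_⟩, ?_⟩
  · obtain ⟨V₁, hV₁, hV₁'⟩ := hθ.cont
    refine ⟨V₀ ⊓ (V₁ ⊓ V₁.comap (MulAut.conj σ).toMonoidHom), ?_, ?_⟩
    · rw [Subgroup.coe_inf, Subgroup.coe_inf]
      refine hV₀.inter (hV₁.inter ?_)
      rw [Subgroup.coe_comap]
      apply hV₁.preimage
      have : ((MulAut.conj σ).toMonoidHom : G → G) = fun x => σ * x * σ⁻¹ := by
        funext x
        rfl
      rw [this]
      fun_prop
    · intro v hv hvU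
      rw [Subgroup.mem_inf, Subgroup.mem_inf, Subgroup.mem_comap] at hv
      obtain ⟨v1, v2, v3⟩ := hv
      have hvU' := hV₀' v v1 hvU
      rw [X2 v hvU']
      have h1 := hχ v hvU'
      have v3' : σ * v * σ⁻¹ ∈ V₁ := v3
      rw [hV₁' v v2 hvU', hV₁' _ v3' (hconj v hvU'), mul_one, mul_inv_cancel] at h1
      exact (Zinj _ _ (by rw [Zone]; rw [one_mul] at h1; exact h1)).symm
  · intro τ hτ hτ' s hs
    have hk := hU τ hτ hτ'
    obtain ⟨k, hkdef⟩ : ∃ k, k = τ * σ⁻¹ := ⟨_, rfl⟩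
    rw [← hkdef] at hk
    have hτk : τ = k * σ := by rw [hkdef]; group
    obtain ⟨δ, hδ⟩ := Eex s (θ k * s₀) (by
      rw [hs, hτk, hψ.mul _ (hle hk) _ hσ, map_mul, hπθ k hk, hs₀])
    refine ⟨fun h hh => ?_, ?_⟩
    · have e1 : τ * h * τ⁻¹ = k * (σ * h * σ⁻¹) * k⁻¹ := by rw [hτk]; group
      have h1 : θ (k * (σ * h * σ⁻¹) * k⁻¹) = θ k * θ (σ * h * σ⁻¹) * (θ k)⁻¹ := by
        rw [hθ.mul _ (U'.mul_mem hk (hconj h hh)) _ (U'.inv_mem hk), hθ.mul _ hk _ (hconj h hh),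
          hom_inv hθ.mul hk]
      have h2 := Emul _ _ _ _ _ _ (Emul _ _ _ _ _ _ (Erefl (θ k)) (hχ h hh)) (Erefl (θ k)⁻¹)
      rw [one_mul, mul_one, ← h1, ← e1] at h2
      have h3 := Emul _ _ _ _ _ _ (Emul _ _ _ _ _ _ hδ (Erefl (θ h))) (Einv _ _ _ hδ)
      rw [mul_one, sq1, Zone, mul_one] at h3
      rw [h2, X2 h hh, h3]
      congr 1
      group
    · have e1 : τ * τ = k * ((σ * k * σ⁻¹) * (σ * σ)) := by rw [hτk]; group
      have m3 := hconj k hk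
      have h1 : θ (k * ((σ * k * σ⁻¹) * (σ * σ))) = θ k * (θ (σ * k * σ⁻¹) * θ (σ * σ)) := by
        rw [hθ.mul _ hk _ (U'.mul_mem m3 hσσ), hθ.mul _ m3 _ hσσ]
      have h2 := Emul _ _ _ _ _ _ (Erefl (θ k)) (Emul _ _ _ _ _ _ (hχ k hk) hε)
      rw [one_mul, ← h1, ← e1] at h2
      have h3 := Emul _ _ _ _ _ _ hδ hδ
      rw [sq1, Zone, mul_one] at h3
      have h4 : X τ = χ k * ε := by
        rw [hτk, X1 _ (hle hk) _ hσ, X2 k hk, X3]
      rw [h2, h4, h3]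
      congr 1
      group

end Pool.Agent.P8H44.FP
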